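import Pool.Agent.EZ.Final

/-!
# The Erdős–Zhang conjecture for quasi-primitive sequences

A sequence `b` (finite: `ι = Fin n`, or infinite: `ι = ℕ`) of integers `≥ 2`, strictly increasing,
such that there are no indices `r < i < j` with `gcd (b i) (b j) = b r`, satisfies
`∑ 1 / (b i * log (b i)) ≤ ∑ 1 / (q * log q)`, the sum over all prime powers `q`.
-/

set_option autoImplicit false

namespace Pool.Agent.Results.MP_24e198_nt.ErdosZhang

open Pool.Agent.EZ

theorem FF_eq : (fun n : ℕ => FF n) =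
    Set.indicator {n : ℕ | IsPrimePow n} (fun n : ℕ => 1 / ((n : ℝ) * Real.log n)) := by
  funext n
  unfold FF hh
  by_cases h : IsPrimePow n
  · rw [if_pos h, Set.indicator_of_mem (show n ∈ {n : ℕ | IsPrimePow n} from h)]
  · rw [if_neg h, Set.indicator_of_notMem (show n ∉ {n : ℕ | IsPrimePow n} from h)]

/-- The Erdős–Zhang conjecture. -/
theorem result {ι : Type} [LinearOrder ι] (b : ι → ℕ) (hmono : StrictMono b) (h2 : ∀ i, 2 ≤ b i)
    (hqp : ∀ r i j : ι, r < i → i < j → Nat.gcd (b i) (b j) ≠ b r) :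
    Summable (fun i : ι => 1 / ((b i : ℝ) * Real.log (b i))) ∧
    Summable (fun q : {q : ℕ // IsPrimePow q} => 1 / ((q.1 : ℝ) * Real.log q.1)) ∧
    ∑' i : ι, 1 / ((b i : ℝ) * Real.log (b i)) ≤
      ∑' q : {q : ℕ // IsPrimePow q}, 1 / ((q.1 : ℝ) * Real.log q.1) := by
  have hB : QPset (Set.range b) := by
    refine ⟨?_, ?_⟩
    · rintro _ ⟨i, rfl⟩
      exact h2 i
    · rintro _ ⟨r, rfl⟩ _ ⟨i, rfl⟩ _ ⟨j, rfl⟩ h h'
      exact hqp r i j (hmono.lt_iff_lt.1 h) (hmono.lt_iff_lt.1 h')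
  obtain ⟨hs, hle⟩ := conjecture (Set.range b) hB
  let e : ι ≃ Set.range b := Equiv.ofInjective b hmono.injective
  have he : ∀ i, ((e i : Set.range b) : ℕ) = b i := fun i => rfl
  have h1 : Summable (fun i : ι => 1 / ((b i : ℝ) * Real.log (b i))) :=
    (e.summable_iff (f := fun x : Set.range b => hh ((x : ℕ) : ℝ))).2 hs
  have h3 : ∑' i : ι, 1 / ((b i : ℝ) * Real.log (b i)) = ∑' x : Set.range b, hh ((x : ℕ) : ℝ) :=
    e.tsum_eq (fun x : Set.range b => hh ((x : ℕ) : ℝ))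
  have h4 : Summable (fun n : ℕ => FF n) := summable_FF
  have h5 : Summable (fun q : {q : ℕ // IsPrimePow q} => 1 / ((q.1 : ℝ) * Real.log q.1)) := by
    rw [FF_eq] at h4
    exact (summable_subtype_iff_indicator (s := {n : ℕ | IsPrimePow n})
      (f := fun n : ℕ => 1 / ((n : ℝ) * Real.log n))).2 h4
  have h6 : ∑' q : {q : ℕ // IsPrimePow q}, 1 / ((q.1 : ℝ) * Real.log q.1) = ∑' n, FF n := by
    rw [FF_eq]
    exact tsum_subtype {n : ℕ | IsPrimePow n} (fun n : ℕ => 1 / ((n : ℝ) * Real.log n))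
  refine ⟨h1, h5, ?_⟩
  rw [h3, h6]
  exact hle

end Pool.Agent.Results.MP_24e198_nt.ErdosZhang
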